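import Mathlib
import Pool.Agent.LeoC.UpStmts
import Pool.Agent.Helper24_LeoK.Cel

/-!
# Squad leoc, module CEL: the number of forms in one dyadic cell
-/

set_option autoImplicit false

open NumberField NumberField.InfinitePlace NumberField.mixedEmbedding IsDedekindDomain Module
open Pool.Agent.LeoK Pool.Agent.LeoG

open scoped Classical

namespace Pool.Agent.LeoC.H67

/-- The bounds at one place. -/
theorem place {A m x cF X Y P : ℝ} (hcF : 1 ≤ cF) (hX : 0 < X) (hY : 0 < Y)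
    (hm0 : 0 ≤ m) (hm : m ≤ 2 * cF * X ^ 4) (hx0 : 0 ≤ x) (hx : x ≤ 2 * cF * Y ^ 2)
    (hA : A ≤ 2 * (x ^ (3 / 2 : ℝ) * m ^ (1 / 4 : ℝ))) (hP : P ≤ 2 * (x * Real.sqrt m)) :
    A ≤ 32 * cF ^ 4 * (Y ^ 3 * X) ∧ P ≤ 8 * cF ^ 2 * (Y ^ 2 * X ^ 2) := by
  have hc0 : 0 < cF := lt_of_lt_of_le one_pos hcF
  have h2c : 1 ≤ 2 * cF := by linarith
  have hx1 : x ^ (3 / 2 : ℝ) ≤ (2 * cF * Y) ^ 3 := by
    rw [← H24.rpow_three_half (by positivity)]
    refine Real.rpow_le_rpow hx0 (hx.trans ?_) (by norm_num)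
    have h1 : (2 * cF * Y) ^ 2 = 2 * cF * Y ^ 2 * (2 * cF) := by ring
    rw [h1]
    exact le_mul_of_one_le_right (by positivity) h2c
  have hm1 : m ^ (1 / 4 : ℝ) ≤ 2 * cF * X := by
    have h1 : ((2 * cF * X) ^ 4) ^ (1 / 4 : ℝ) = 2 * cF * X := by
      rw [← Real.rpow_natCast, ← Real.rpow_mul (by positivity)]
      norm_num
    rw [← h1]
    refine Real.rpow_le_rpow hm0 (hm.trans ?_) (by norm_num)
    have h2 : (2 * cF * X) ^ 4 = 2 * cF * X ^ 4 * (2 * cF) ^ 3 := by ring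
    rw [h2]
    exact le_mul_of_one_le_right (by positivity) (one_le_pow₀ h2c)
  have hm2 : Real.sqrt m ≤ 2 * cF * X ^ 2 := by
    rw [Real.sqrt_le_left (by positivity)]
    refine hm.trans ?_
    have h2 : (2 * cF * X ^ 2) ^ 2 = 2 * cF * X ^ 4 * (2 * cF) := by ring
    rw [h2]
    exact le_mul_of_one_le_right (by positivity) h2c
  constructor
  · refine hA.trans ?_
    calc 2 * (x ^ (3 / 2 : ℝ) * m ^ (1 / 4 : ℝ)) ≤ 2 * ((2 * cF * Y) ^ 3 * (2 * cF * X)) := by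
          gcongr
      _ = 32 * cF ^ 4 * (Y ^ 3 * X) := by ring
  · refine hP.trans ?_
    calc 2 * (x * Real.sqrt m) ≤ 2 * ((2 * cF * Y ^ 2) * (2 * cF * X ^ 2)) := by gcongr
      _ = 8 * cF ^ 2 * (Y ^ 2 * X ^ 2) := by ring

section

variable {k : Type} [Field k] [NumberField k]

theorem fv_em (hevs : EvsStmt) (v : InfinitePlace k) (g : Q4 (𝓞 k)) :
    fv v (em g) = fun i => v.embedding ((g i : 𝓞 k) : k) := by
  funext i
  exact (hevs k).1 v _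

theorem map_mm (hevs : EvsStmt) (v : InfinitePlace k) (g : Q4 (𝓞 k)) :
    mm (fv v (em g)) = v.embedding ((mm g : 𝓞 k) : k) := by
  rw [fv_em hevs]
  have h4 : ∀ n : ℕ, [n.AtLeastTwo] → ((OfNat.ofNat n : 𝓞 k) : k) = OfNat.ofNat n := by
    intro n _
    exact map_ofNat (algebraMap (𝓞 k) k) n
  simp only [mm, dsc, map_neg, map_add, map_sub, map_mul, map_pow, h4, map_ofNat]

theorem mult_prod (c : ℝ) : nr (fun _ : InfinitePlace k => c) = c ^ finrank ℚ k := by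
  unfold nr
  rw [Finset.prod_pow_eq_pow_sum, InfinitePlace.sum_mult_eq]

theorem nr_mono {x y : PS k} (h0 : ∀ v, 0 ≤ x v) (h : ∀ v, x v ≤ y v) : nr x ≤ nr y :=
  Finset.prod_le_prod (fun v _ => pow_nonneg (h0 v) _) fun v _ => pow_le_pow_left₀ (h0 v) (h v) _

theorem nr_pos {x : PS k} (h0 : ∀ v, 0 < x v) : 0 < nr x :=
  Finset.prod_pos fun v _ => pow_pos (h0 v) _

theorem nr_div (c : ℝ) (x : PS k) : nr (fun v => c / x v) = c ^ finrank ℚ k / nr x := by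
  rw [← mult_prod c]
  unfold nr
  rw [← Finset.prod_div_distrib]
  exact Finset.prod_congr rfl fun v _ => div_pow _ _ _

/-- The bounds at all places for an element of the cell. -/
theorem cell_bounds (hevs : EvsStmt) (hrea : ReaStmt) {cF R X Y : ℝ} (hcF : 1 ≤ cF) (hX : 0 < X)
    (hY : 0 < Y) {g : Q4 (𝓞 k)} (hg : g ∈ ccell (k := k) cF R (X ^ 4) (Y ^ 2))
    (v : InfinitePlace k) :
    v (g 0 : k) ≤ 32 * cF ^ 4 * (Y ^ 3 * X) ∧
    ‖v.embedding (g 1 : k) ^ 2 - 3 * v.embedding (g 0 : k) * v.embedding (g 2 : k)‖ ≤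
      8 * cF ^ 2 * (Y ^ 2 * X ^ 2) := by
  obtain ⟨-, -, h3, h4⟩ := hg
  obtain ⟨h3, h3'⟩ := h3 v
  obtain ⟨h4, h4'⟩ := h4 v
  have hc0 : 0 < cF := lt_of_lt_of_le one_pos hcF
  have hmm : ‖mm (fv v (em g))‖ = v ((mm g : 𝓞 k) : k) := by
    rw [map_mm hevs, InfinitePlace.norm_embedding_eq]
  have hm0 : mm (fv v (em g)) ≠ 0 := by
    intro h
    rw [h, norm_zero] at hmm
    rw [← hmm, mul_zero] at h3
    have : 0 < X ^ 4 := by positivity
    linarith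
  obtain ⟨r1, -, r3, r4⟩ := hrea.1 _ hm0
  rw [hmm] at r3 r4
  have h5 := place hcF hX hY (apply_nonneg v _) h3' r1 h4' r3 r4
  rw [fv_em hevs] at h5
  rw [InfinitePlace.norm_embedding_eq] at h5
  exact h5

/-- Elements all of whose coordinates are in one of two discs. -/
theorem count_d {C1 : ℝ}
    (hbox : ∀ (α : InfinitePlace k → ℂ) (L : PS k), (∀ v, 0 ≤ L v) →
        {x : 𝓞 k | ∀ v : InfinitePlace k, ‖v.embedding (x : k) - α v‖ ≤ L v}.Finite ∧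
        ({x : 𝓞 k | ∀ v : InfinitePlace k, ‖v.embedding (x : k) - α v‖ ≤ L v}.ncard : ℝ) ≤
          C1 * nr (fun v => L v + 1))
    {l : ℝ} (hl : 0 ≤ l) (α : InfinitePlace k → Fin 2 → ℂ) :
    {x : 𝓞 k | ∀ v : InfinitePlace k, ∃ i, ‖v.embedding (x : k) - α v i‖ ≤ l}.Finite ∧
    ({x : 𝓞 k | ∀ v : InfinitePlace k, ∃ i, ‖v.embedding (x : k) - α v i‖ ≤ l}.ncard : ℝ) ≤
      2 ^ Fintype.card (InfinitePlace k) * (C1 * (l + 1) ^ finrank ℚ k) := by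
  obtain ⟨T, hT⟩ : ∃ T : (InfinitePlace k → Fin 2) → Set (𝓞 k), T = fun e =>
      {x : 𝓞 k | ∀ v : InfinitePlace k, ‖v.embedding (x : k) - α v (e v)‖ ≤ l} := ⟨_, rfl⟩
  have hTe : ∀ e, (T e).Finite ∧ ((T e).ncard : ℝ) ≤ C1 * (l + 1) ^ finrank ℚ k := by
    intro e
    have := hbox (fun v => α v (e v)) (fun _ => l) (fun _ => hl)
    rw [mult_prod] at this
    rw [hT]
    exact this
  have hsub : {x : 𝓞 k | ∀ v : InfinitePlace k, ∃ i, ‖v.embedding (x : k) - α v i‖ ≤ l} ⊆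
      ⋃ e ∈ (Finset.univ : Finset (InfinitePlace k → Fin 2)), T e := by
    intro x hx
    simp only [Finset.mem_univ, Set.iUnion_true, Set.mem_iUnion]
    choose e he using hx
    refine ⟨e, ?_⟩
    rw [hT]
    exact he
  have hfin : (⋃ e ∈ (Finset.univ : Finset (InfinitePlace k → Fin 2)), T e).Finite :=
    Set.Finite.biUnion (Finset.finite_toSet _) fun e _ => (hTe e).1
  refine ⟨hfin.subset hsub, ?_⟩
  calc (({x : 𝓞 k | ∀ v : InfinitePlace k, ∃ i, ‖v.embedding (x : k) - α v i‖ ≤ l}.ncard : ℕ) : ℝ)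
      ≤ ((⋃ e ∈ (Finset.univ : Finset (InfinitePlace k → Fin 2)), T e).ncard : ℝ) := by
        exact_mod_cast Set.ncard_le_ncard hsub hfin
    _ ≤ ((∑ e ∈ (Finset.univ : Finset (InfinitePlace k → Fin 2)), (T e).ncard : ℕ) : ℝ) := by
        exact_mod_cast Finset.set_ncard_biUnion_le _ _
    _ = ∑ e : InfinitePlace k → Fin 2, ((T e).ncard : ℝ) := by push_cast; rfl
    _ ≤ ∑ _e : InfinitePlace k → Fin 2, C1 * (l + 1) ^ finrank ℚ k :=
        Finset.sum_le_sum fun e _ => (hTe e).2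
    _ = 2 ^ Fintype.card (InfinitePlace k) * (C1 * (l + 1) ^ finrank ℚ k) := by
        rw [Finset.sum_const, nsmul_eq_mul, Finset.card_univ, Fintype.card_fun, Fintype.card_fin]
        push_cast
        ring

/-- The count in one cell. -/
theorem cel_core (hevs : EvsStmt) (hrea : ReaStmt) {C1 C2 C3 : ℝ} (hC1 : 0 < C1) (hC2 : 0 < C2)
    (hC3 : 0 < C3) {R : ℝ}
    (hbox : ∀ (α : InfinitePlace k → ℂ) (L : PS k), (∀ v, 0 ≤ L v) →
        {x : 𝓞 k | ∀ v : InfinitePlace k, ‖v.embedding (x : k) - α v‖ ≤ L v}.Finite ∧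
        ({x : 𝓞 k | ∀ v : InfinitePlace k, ‖v.embedding (x : k) - α v‖ ≤ L v}.ncard : ℝ) ≤
          C1 * nr (fun v => L v + 1))
    (hbcn : ∀ a : 𝓞 k, a ≠ 0 →
      {b : 𝓞 k | ∀ v : InfinitePlace k, v (b : k) ≤ R * v (a : k)}.Finite ∧
      ({b : 𝓞 k | ∀ v : InfinitePlace k, v (b : k) ≤ R * v (a : k)}.ncard : ℝ) ≤
        C2 * nr (av (mixedEmbedding k (a : k))))
    {cF X Y Y0 : ℝ} (hcF : 1 ≤ cF) (hX : 1 / 2 ≤ X) (hY : 0 < Y) (hY0 : Y ≤ Y0)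
    (hd : ∀ (a b c : ℂ) (M ξ : ℝ), a ≠ 0 → 0 < M → 0 < ξ →
      ∃ α : Fin 2 → ℂ, ∀ d : ℂ, M ≤ 2 * cF * ‖mm ![a, b, c, d]‖ →
        ‖mm ![a, b, c, d]‖ ≤ 2 * cF * M → ξ ≤ 2 * cF * hc ![a, b, c, d] 1 0 →
        hc ![a, b, c, d] 1 0 ≤ 2 * cF * ξ →
        ∃ i, ‖d - α i‖ ≤ C3 * (M ^ (1 / 4 : ℝ) / ξ ^ (3 / 2 : ℝ)))
    (hA : 1 ≤ 32 * cF ^ 4 * (Y ^ 3 * X)) :
    (ccell (k := k) cF R (X ^ 4) (Y ^ 2)).Finite ∧
      ((ccell (k := k) cF R (X ^ 4) (Y ^ 2)).ncard : ℝ) ≤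
        (C1 * (64 * cF ^ 4 * (Y ^ 3 * X)) ^ finrank ℚ k) *
        (C2 * (C1 * ((8 * cF ^ 2 + 64 * cF ^ 4 * Y0) * (Y ^ 2 * X ^ 2)) ^ finrank ℚ k) *
        (2 ^ Fintype.card (InfinitePlace k) *
          (C1 * ((C3 + 2 * Y0 ^ 3) * (X / Y ^ 3)) ^ finrank ℚ k))) := by
  have hc0 : 0 < cF := lt_of_lt_of_le one_pos hcF
  have hX0 : 0 < X := lt_of_lt_of_le (by norm_num) hX
  have hY00 : 0 < Y0 := lt_of_lt_of_le hY hY0
  obtain ⟨n, hn⟩ : ∃ n : ℕ, n = finrank ℚ k := ⟨_, rfl⟩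
  rw [← hn]
  obtain ⟨A, hAdef⟩ : ∃ A, A = 32 * cF ^ 4 * (Y ^ 3 * X) := ⟨_, rfl⟩
  rw [← hAdef] at hA
  have hA0 : 0 < A := lt_of_lt_of_le one_pos hA
  obtain ⟨Pp, hPp⟩ : ∃ Pp, Pp = 8 * cF ^ 2 * (Y ^ 2 * X ^ 2) := ⟨_, rfl⟩
  have hPp0 : 0 < Pp := by rw [hPp]; positivity
  obtain ⟨K, hK⟩ : ∃ K, K = (8 * cF ^ 2 + 64 * cF ^ 4 * Y0) * (Y ^ 2 * X ^ 2) := ⟨_, rfl⟩
  have hK0 : 0 < K := by rw [hK]; positivity
  have hKA : Pp + A ≤ K := by
    have h1 : Y ≤ Y0 * (2 * X) := by nlinarith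
    have h2 : Y ^ 3 * X ≤ 2 * Y0 * (Y ^ 2 * X ^ 2) := by
      have h3 : 0 ≤ Y ^ 2 * X := by positivity
      calc Y ^ 3 * X = (Y ^ 2 * X) * Y := by ring
        _ ≤ (Y ^ 2 * X) * (Y0 * (2 * X)) := by gcongr
        _ = 2 * Y0 * (Y ^ 2 * X ^ 2) := by ring
    rw [hPp, hAdef, hK]
    have h4 : 32 * cF ^ 4 * (Y ^ 3 * X) ≤ 32 * cF ^ 4 * (2 * Y0 * (Y ^ 2 * X ^ 2)) := by gcongr
    nlinarith
  obtain ⟨l, hl⟩ : ∃ l, l = C3 * (X / Y ^ 3) := ⟨_, rfl⟩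
  have hl0 : 0 < l := by rw [hl]; positivity
  have hl1 : l + 1 ≤ (C3 + 2 * Y0 ^ 3) * (X / Y ^ 3) := by
    have h1 : 1 ≤ 2 * Y0 ^ 3 * (X / Y ^ 3) := by
      rw [mul_div_assoc', le_div_iff₀ (by positivity), one_mul]
      have h2 : Y ^ 3 ≤ Y0 ^ 3 := by gcongr
      have h3 : 0 ≤ Y0 ^ 3 := by positivity
      nlinarith
    rw [hl, add_mul]
    linarith
  obtain ⟨Nd, hNd⟩ : ∃ Nd, Nd = 2 ^ Fintype.card (InfinitePlace k) *
    (C1 * ((C3 + 2 * Y0 ^ 3) * (X / Y ^ 3)) ^ n) := ⟨_, rfl⟩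
  have hNd0 : 0 < Nd := by rw [hNd]; positivity
  rw [← hNd]
  obtain ⟨S, hS⟩ : ∃ S : Set (Q4 (𝓞 k)), S = ccell (k := k) cF R (X ^ 4) (Y ^ 2) := ⟨_, rfl⟩
  have hb : ∀ g ∈ S, ∀ v : InfinitePlace k, v (g 0 : k) ≤ A ∧
      ‖v.embedding (g 1 : k) ^ 2 - 3 * v.embedding (g 0 : k) * v.embedding (g 2 : k)‖ ≤ Pp := by
    intro g hg v
    rw [hAdef, hPp]
    exact cell_bounds hevs hrea hcF hX0 hY (hS ▸ hg : g ∈ ccell (k := k) cF R (X ^ 4) (Y ^ 2)) v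
  rw [← hS]
  -- the element `a`
  refine H24.fib S (fun g => g 0)
    {x : 𝓞 k | ∀ v : InfinitePlace k, ‖v.embedding (x : k) - 0‖ ≤ A}
    (hbox (fun _ => 0) (fun _ => A) (fun _ => hA0.le)).1 ?_ (by positivity) ?_ ?_
  · refine (hbox (fun _ => 0) (fun _ => A) (fun _ => hA0.le)).2.trans ?_
    rw [mult_prod, ← hn]
    have h1 : 64 * cF ^ 4 * (Y ^ 3 * X) = 2 * A := by rw [hAdef]; ring
    rw [h1]
    gcongr
    linarith
  · intro g hg v
    rw [sub_zero, InfinitePlace.norm_embedding_eq]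
    exact (hb g hg v).1
  intro a ha
  by_cases ha0 : a = 0
  · have he : {g | g ∈ S ∧ g 0 = a} = ∅ := by
      rw [Set.eq_empty_iff_forall_notMem]
      rintro g ⟨hg, h0⟩
      rw [hS] at hg
      exact hg.1 (h0.trans ha0)
    rw [he]
    exact ⟨Set.finite_empty, by rw [Set.ncard_empty]; push_cast; positivity⟩
  have hak : (a : k) ≠ 0 := by
    intro h
    exact ha0 (RingOfIntegers.coe_eq_zero_iff.1 h)
  have hsa : ∀ v : InfinitePlace k, 0 < v (a : k) := fun v => InfinitePlace.pos_iff.2 hak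
  have hsA : ∀ v : InfinitePlace k, v (a : k) ≤ A := by
    intro v
    have h1 := ha v
    rwa [sub_zero, InfinitePlace.norm_embedding_eq] at h1
  obtain ⟨p, hp⟩ : ∃ p, p = nr (av (mixedEmbedding k (a : k))) := ⟨_, rfl⟩
  have hav : av (mixedEmbedding k (a : k)) = fun v : InfinitePlace k => v (a : k) := by
    funext v
    exact (hevs k).2.2.2.2.2.2.2.1 _ v
  have hprod : 0 < p := by
    rw [hp, hav]
    exact nr_pos hsa
  -- the element `b`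
  have hN : C2 * (C1 * K ^ n) * Nd = (C2 * p) * ((C1 * (K ^ n / p)) * Nd) := by
    field_simp
  rw [← hK, hN]
  refine H24.fib {g | g ∈ S ∧ g 0 = a} (fun g => g 1)
    {b : 𝓞 k | ∀ v : InfinitePlace k, v (b : k) ≤ R * v (a : k)}
    (hbcn a ha0).1 ?_ (by positivity) ?_ ?_
  · rw [hp]
    exact (hbcn a ha0).2
  · rintro g ⟨hg, h0⟩ v
    rw [hS] at hg
    have := hg.2.1 v
    rwa [h0] at this
  intro b hb1
  -- the element `c`
  have hL : ∀ v : InfinitePlace k, 0 ≤ Pp / v (a : k) := fun v =>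
    div_nonneg (by positivity) (hsa v).le
  refine H24.fib {g | (g ∈ S ∧ g 0 = a) ∧ g 1 = b} (fun g => g 2)
    {x : 𝓞 k | ∀ v : InfinitePlace k, ‖v.embedding (x : k) -
      (fun v : InfinitePlace k => v.embedding (b : k) ^ 2 / (3 * v.embedding (a : k))) v‖ ≤
      (fun v : InfinitePlace k => Pp / v (a : k)) v}
    (hbox _ _ hL).1 ?_ hNd0.le ?_ ?_
  · refine (hbox _ _ hL).2.trans ?_
    apply mul_le_mul_of_nonneg_left _ hC1.le
    rw [hp, hav, hn, ← nr_div K (fun v : InfinitePlace k => v (a : k))]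
    refine nr_mono (fun v => by have := hL v; linarith) (fun v => ?_)
    have h2 := hsa v
    rw [div_add_one h2.ne']
    gcongr
    linarith [hsA v]
  · rintro g ⟨⟨hg, h0⟩, h1⟩ v
    have h2 := (hb g hg v).2
    rw [h0, h1] at h2
    have ha1 : v.embedding (a : k) ≠ 0 := (map_ne_zero v.embedding).2 hak
    have hc : v.embedding (g 2 : k) - v.embedding (b : k) ^ 2 / (3 * v.embedding (a : k)) =
        -(v.embedding (b : k) ^ 2 - 3 * v.embedding (a : k) * v.embedding (g 2 : k)) /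
          (3 * v.embedding (a : k)) := by
      field_simp
      ring
    simp only
    rw [hc, norm_div, norm_neg, norm_mul, InfinitePlace.norm_embedding_eq, RCLike.norm_ofNat]
    have h3 := hsa v
    calc ‖v.embedding (b : k) ^ 2 - 3 * v.embedding (a : k) * v.embedding (g 2 : k)‖ /
          (3 * v (a : k)) ≤ Pp / (3 * v (a : k)) := by gcongr
      _ ≤ Pp / v (a : k) := by
          gcongr
          linarith
  intro c hc1
  by_cases hne : {g | ((g ∈ S ∧ g 0 = a) ∧ g 1 = b) ∧ g 2 = c} = ∅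
  · have he : {g | g ∈ {g | (g ∈ S ∧ g 0 = a) ∧ g 1 = b} ∧ g 2 = c} = ∅ := hne
    rw [he]
    exact ⟨Set.finite_empty, by rw [Set.ncard_empty]; push_cast; exact hNd0.le⟩
  have hαv : ∀ v : InfinitePlace k, _ := fun v =>
    hd (v.embedding (a : k)) (v.embedding (b : k)) (v.embedding (c : k)) (X ^ 4) (Y ^ 2)
      ((map_ne_zero v.embedding).2 hak) (by positivity) (by positivity)
  choose α hα using hαv
  have hcd := count_d (k := k) hbox hl0.le α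
  rw [← hn] at hcd
  have hN1 : Nd = Nd * 1 := (mul_one _).symm
  rw [hN1]
  refine H24.fib {g | g ∈ {g | (g ∈ S ∧ g 0 = a) ∧ g 1 = b} ∧ g 2 = c} (fun g => g 3)
    {x : 𝓞 k | ∀ v : InfinitePlace k, ∃ i, ‖v.embedding (x : k) - α v i‖ ≤ l} hcd.1 ?_
    zero_le_one ?_ ?_
  · refine hcd.2.trans ?_
    rw [hNd]
    gcongr
  · rintro g ⟨⟨⟨hg, h0⟩, h1⟩, h2⟩ v
    rw [hS] at hg
    obtain ⟨-, -, h3, h4⟩ := hg
    obtain ⟨h3, h3'⟩ := h3 v
    obtain ⟨h4, h4'⟩ := h4 v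
    have hmm : ‖mm (fv v (em g))‖ = v ((mm g : 𝓞 k) : k) := by
      rw [map_mm hevs, InfinitePlace.norm_embedding_eq]
    have hfv : fv v (em g) = ![v.embedding (a : k), v.embedding (b : k), v.embedding (c : k),
        v.embedding (g 3 : k)] := by
      rw [fv_em hevs]
      funext i
      fin_cases i
      · show v.embedding (g 0 : k) = v.embedding (a : k)
        rw [h0]
      · show v.embedding (g 1 : k) = v.embedding (b : k)
        rw [h1]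
      · show v.embedding (g 2 : k) = v.embedding (c : k)
        rw [h2]
      · rfl
    rw [← hmm] at h3 h3'
    have hsz : sz (em g) v = hc (fv v (em g)) 1 0 := rfl
    rw [hsz] at h4 h4'
    rw [hfv] at h3 h3' h4 h4'
    have hx1 : (X ^ 4) ^ (1 / 4 : ℝ) = X := by
      rw [← Real.rpow_natCast, ← Real.rpow_mul hX0.le]
      norm_num
    have hy1 : (Y ^ 2) ^ (3 / 2 : ℝ) = Y ^ 3 := H24.rpow_three_half hY.le
    have h5 := hα v (v.embedding (g 3 : k)) ?_ h3' ?_ h4'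
    · rw [hx1, hy1, ← hl] at h5
      exact h5
    · refine h3.trans ?_
      have := norm_nonneg (mm ![v.embedding (a : k), v.embedding (b : k), v.embedding (c : k),
        v.embedding (g 3 : k)])
      nlinarith
    · refine h4.trans ?_
      have h6 : 0 ≤ hc ![v.embedding (a : k), v.embedding (b : k), v.embedding (c : k),
          v.embedding (g 3 : k)] 1 0 := by
        by_contra h7
        push Not at h7
        have : 0 < Y ^ 2 := by positivity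
        nlinarith
      nlinarith
  · intro d hd
    have hsub : {g | g ∈ {g | g ∈ {g | (g ∈ S ∧ g 0 = a) ∧ g 1 = b} ∧ g 2 = c} ∧ g 3 = d} ⊆
        {![a, b, c, d]} := by
      rintro g ⟨⟨⟨⟨hg, h0⟩, h1⟩, h2⟩, h3⟩
      rw [Set.mem_singleton_iff]
      funext i
      fin_cases i
      · exact h0
      · exact h1
      · exact h2
      · exact h3
    refine ⟨(Set.finite_singleton _).subset hsub, ?_⟩
    have h1 := Set.ncard_le_ncard hsub (Set.finite_singleton _)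
    rw [Set.ncard_singleton] at h1
    exact_mod_cast h1

end

theorem cel (hbox : BoxStmt) (hbcn : BcnStmt) (hrea : ReaStmt) (hevs : EvsStmt) : CelStmt := by
  intro k _ _ cF R ξ₀ hcF hR hξ₀
  obtain ⟨C1, hC1, hbox⟩ := hbox k
  obtain ⟨C2, hC2, hbcn⟩ := hbcn k R hR
  have hc0 : 0 < cF := lt_of_lt_of_le one_pos hcF
  obtain ⟨C3, hC3, hd⟩ := hrea.2 (2 * cF) (by linarith)
  obtain ⟨n, hn⟩ : ∃ n : ℕ, n = finrank ℚ k := ⟨_, rfl⟩
  have hn0 : 0 < n := by rw [hn]; exact finrank_pos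
  obtain ⟨Y0, hY0⟩ : ∃ Y0, Y0 = Real.sqrt ξ₀ := ⟨_, rfl⟩
  have hY00 : 0 < Y0 := by rw [hY0]; exact Real.sqrt_pos.2 hξ₀
  obtain ⟨C, hC⟩ : ∃ C, C = (C1 * (64 * cF ^ 4) ^ n) * (C2 * (C1 *
      (8 * cF ^ 2 + 64 * cF ^ 4 * Y0) ^ n) * (2 ^ Fintype.card (InfinitePlace k) *
        (C1 * (C3 + 2 * Y0 ^ 3) ^ n))) :=
    ⟨_, rfl⟩
  have hC0 : 0 < C := by rw [hC]; positivity
  refine ⟨C + 32 * cF ^ 4, by positivity, ?_⟩
  intro M ξ hM hξ hξξ
  obtain ⟨X, hX⟩ : ∃ X, X = M ^ (1 / 4 : ℝ) := ⟨_, rfl⟩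
  obtain ⟨Y, hY⟩ : ∃ Y, Y = Real.sqrt ξ := ⟨_, rfl⟩
  have hM0 : 0 < M := lt_of_lt_of_le (by norm_num) hM
  have hX0 : 0 < X := by rw [hX]; positivity
  have hYp : 0 < Y := by rw [hY]; exact Real.sqrt_pos.2 hξ
  have hX4 : X ^ 4 = M := by
    rw [hX, ← Real.rpow_natCast, ← Real.rpow_mul hM0.le]
    norm_num
  have hY2 : Y ^ 2 = ξ := by rw [hY]; exact Real.sq_sqrt hξ.le
  have hYY : Y ≤ Y0 := by rw [hY, hY0]; exact Real.sqrt_le_sqrt hξξ
  have hX2 : 1 / 2 ≤ X := by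
    by_contra h
    push Not at h
    have h1 : X ^ 4 < (1 / 2) ^ 4 := by gcongr
    rw [hX4] at h1
    norm_num at h1
    linarith
  have hξ3 : ξ ^ (3 / 2 : ℝ) = Y ^ 3 := by rw [← hY2, H24.rpow_three_half hYp.le]
  rw [← hX, hξ3, ← hX4, ← hY2, ← hn]
  rcases Set.eq_empty_or_nonempty (ccell (k := k) cF R (X ^ 4) (Y ^ 2)) with he | hne
  · rw [he]
    refine ⟨Set.finite_empty, ?_, fun h => absurd h Set.not_nonempty_empty⟩
    rw [Set.ncard_empty]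
    push_cast
    positivity
  have hA : 1 ≤ 32 * cF ^ 4 * (Y ^ 3 * X) := by
    obtain ⟨g, hg⟩ := hne
    have h1 := ((hevs k).2.2.2.2.2.2.2.2 (g 0) hg.1).1
    have h2 : nr (av (mixedEmbedding k (g 0 : k))) ≤
        nr (fun _ : InfinitePlace k => 32 * cF ^ 4 * (Y ^ 3 * X)) := by
      apply nr_mono
      · intro v
        exact norm_nonneg _
      · intro v
        rw [(hevs k).2.2.2.2.2.2.2.1]
        exact (cell_bounds hevs hrea hcF hX0 hYp hg v).1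
    rw [mult_prod, ← hn] at h2
    by_contra h3
    push Not at h3
    have h4 : (32 * cF ^ 4 * (Y ^ 3 * X)) ^ n < 1 :=
      pow_lt_one₀ (by positivity) h3 hn0.ne'
    linarith
  have hcore := cel_core (k := k) hevs hrea hC1 hC2 hC3 hbox hbcn hcF hX2 hYp hYY hd hA
  rw [← hn] at hcore
  refine ⟨hcore.1, ?_, fun _ => ?_⟩
  · refine hcore.2.trans ?_
    have h1 : (C1 * (64 * cF ^ 4 * (Y ^ 3 * X)) ^ n) *
        (C2 * (C1 * ((8 * cF ^ 2 + 64 * cF ^ 4 * Y0) * (Y ^ 2 * X ^ 2)) ^ n) *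
        (2 ^ Fintype.card (InfinitePlace k) * (C1 * ((C3 + 2 * Y0 ^ 3) * (X / Y ^ 3)) ^ n))) =
        C * (Y ^ 2) ^ n * (X ^ 4) ^ n := by
      have h2 : (Y ^ 2) ^ n * (X ^ 4) ^ n = ((Y ^ 3 * X) * (Y ^ 2 * X ^ 2) * (X / Y ^ 3)) ^ n := by
        rw [← mul_pow]
        congr 1
        field_simp
      rw [mul_assoc C, h2, hC]
      simp only [mul_pow]
      ring
    rw [h1]
    have h3 : 0 ≤ (Y ^ 2) ^ n * (X ^ 4) ^ n := by positivity
    have h4 : 0 < 32 * cF ^ 4 := by positivity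
    nlinarith
  · have h5 : 0 ≤ C * (Y ^ 3 * X) := by positivity
    linarith

end Pool.Agent.LeoC.H67
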